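import Pool.Agent.Helper267_hyp.Final3

/-!
# MP_592f63_co: the Hoffman bound `h(d)` of the hyperbolic distance graph `ℍ(d)` is nondecreasing

The hyperbolic plane is the open unit disc with the measure `4 (1 - x² - y²)⁻² dx dy`.
-/

set_option autoImplicit false

open MeasureTheory Set
open scoped ComplexConjugate

namespace Pool.Agent.Results.MP_592f63_co.HoffmanMonotone

noncomputable section

/-- the hyperbolic measure `4 (1 - |w|²)⁻² dx dy` of the unit disc (zero outside it) -/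
def hyp : Measure ℂ :=
  (volume.restrict {w : ℂ | ‖w‖ < 1}).withDensity (fun w => ENNReal.ofReal (4 / (1 - ‖w‖ ^ 2) ^ 2))

/-- the point with parameter `t` of the hyperbolic circle of radius `d` about `w`: the image of
`e = tanh (d/2) e^{it}` under the isometry `e ↦ (e + w) / (1 + conj w * e)`, which maps `0` to `w` -/
def circlePoint (d t : ℝ) (w : ℂ) : ℂ :=
  ((Real.tanh (d / 2) : ℂ) * Complex.exp (t * Complex.I) + w) /
    (1 + conj w * ((Real.tanh (d / 2) : ℂ) * Complex.exp (t * Complex.I)))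

/-- `(A_d f)(w)`, the mean value of `f` over the hyperbolic circle of radius `d` about `w` with
respect to normalised arc length -/
def circleMean (d : ℝ) (f : ℂ → ℂ) (w : ℂ) : ℂ :=
  ((1 / (2 * Real.pi) : ℝ) : ℂ) * ∫ t in (0:ℝ)..(2 * Real.pi), f (circlePoint d t w)

/-- the set of the values `⟨A_d f, f⟩`, `f ∈ L²`, `‖f‖₂ = 1` -/
def values (d : ℝ) : Set ℝ :=
  {x : ℝ | ∃ f : ℂ → ℂ, MemLp f 2 hyp ∧ ∫ w, ‖f w‖ ^ 2 ∂hyp = 1 ∧
    ∫ w, circleMean d f w * conj (f w) ∂hyp = (x : ℂ)}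

/-- the Hoffman bound `h(d) = 1 - M(A_d) / m(A_d)` -/
def hoffman (d : ℝ) : ℝ := 1 - sSup (values d) / sInf (values d)

/-- the spherical function -/
def phi (l d : ℝ) : ℝ :=
  (1 / (2 * Real.pi)) * ∫ t in (0:ℝ)..(2 * Real.pi),
    (Real.cosh d - Real.sinh d * Real.cos t) ^ (-(1 / 2) : ℝ) *
      Real.cos (l * Real.log (Real.cosh d - Real.sinh d * Real.cos t))

theorem result :
    -- the parametrisation of the circles: distance `d` from `w`, constant hyperbolic speed `sinh d`
    (∀ (d t : ℝ) (w : ℂ), 0 < d → ‖w‖ < 1 →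
      ‖circlePoint d t w‖ < 1 ∧
      ‖(circlePoint d t w - w) / (1 - conj w * circlePoint d t w)‖ = Real.tanh (d / 2) ∧
      ∃ v : ℂ, HasDerivAt (fun t : ℝ => circlePoint d t w) v t ∧
        2 * ‖v‖ / (1 - ‖circlePoint d t w‖ ^ 2) = Real.sinh d) ∧
    -- `M(A_d)` and `m(A_d)`
    (∀ d : ℝ, 0 < d → BddAbove (values d) ∧ BddBelow (values d) ∧ (values d).Nonempty ∧
      sInf (values d) < 0 ∧
      sSup (values d) = phi 0 d ∧ sInf (values d) = ⨅ l : ℝ, phi l d) ∧
    -- the Hoffman bound is nondecreasing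
    ∀ d d' : ℝ, 0 < d → d < d' → hoffman d ≤ hoffman d' :=
  Pool.Agent.H267H.final3

end

end Pool.Agent.Results.MP_592f63_co.HoffmanMonotone
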